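import Pool.Agent.Work.MP_db9399_all.Interface

/-!
# VIZ: Vizing's theorem

Proof of Ehrenfeucht, Faber and Kierstead (in the form of Schrijver's book): if `v` and all its
neighbours have degree at most `n`, at most one neighbour has degree exactly `n` and `G - v` is
`n`-edge-colourable, then `G` is `n`-edge-colourable.
-/

set_option autoImplicit false

namespace Pool.Agent.Work.MP_db9399_all

open Finset Classical

universe u

namespace VIZ

section

variable {V : Type u} [Fintype V]

theorem mem_nb {G : SimpleGraph V} {v w : V} : w ∈ nb G v ↔ G.Adj v w := by simp [nb]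

/-- proper edge colourings with colours in `C` -/
structure EC (G : SimpleGraph V) (C : Finset ℕ) (t : V → V → ℕ) : Prop where
  sym : ∀ x y, G.Adj x y → t x y = t y x
  mem : ∀ x y, G.Adj x y → t x y ∈ C
  inj : ∀ x, Set.InjOn (t x) (nb G x : Set V)

/-- the colours missing at `u` -/
noncomputable def miss (G : SimpleGraph V) (C : Finset ℕ) (t : V → V → ℕ) (u : V) : Finset ℕ :=
  C \ (nb G u).image (t u)

theorem card_miss {G : SimpleGraph V} {C : Finset ℕ} {t : V → V → ℕ} (h : EC G C t) (u : V) :
    (miss G C t u).card + (nb G u).card = C.card := by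
  unfold miss
  have h1 : (nb G u).image (t u) ⊆ C := by
    intro a ha
    obtain ⟨y, hy, rfl⟩ := Finset.mem_image.mp ha
    exact h.mem u y (mem_nb.mp hy)
  have h2 := Finset.card_sdiff_add_card_eq_card h1
  rwa [Finset.card_image_of_injOn (h.inj u)] at h2

/-- the number of vertices of a component is at most the number of edges plus one -/
theorem comp_bound (H : SimpleGraph V) (c : H.ConnectedComponent) :
    2 * (univ.filter (fun u => H.connectedComponentMk u = c)).card ≤
      ∑ u ∈ univ.filter (fun u => H.connectedComponentMk u = c), (nb H u).card + 2 := by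
  have h1 := (c.connected_toSimpleGraph).card_vert_le_card_edgeSet_add_one
  have h2 := c.toSimpleGraph.sum_degrees_eq_twice_card_edges
  have hcard : Nat.card c = (univ.filter (fun u => H.connectedComponentMk u = c)).card := by
    rw [Nat.card_eq_fintype_card]
    exact Fintype.card_subtype _
  have hE : Nat.card c.toSimpleGraph.edgeSet = c.toSimpleGraph.edgeFinset.card := by
    rw [Nat.card_eq_fintype_card, SimpleGraph.edgeFinset_card]
  have hdeg : ∀ x : c, c.toSimpleGraph.degree x ≤ (nb H x.1).card := by
    intro x
    rw [← SimpleGraph.card_neighborFinset_eq_degree]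
    apply Finset.card_le_card_of_injOn (fun y : c => (y : V))
    · intro y hy
      have : c.toSimpleGraph.Adj x y := by simpa using hy
      have h3 : H.Adj x.1 y.1 := this
      simpa [mem_nb] using h3
    · intro y _ z _ hyz
      exact Subtype.ext hyz
  have hsum : ∑ x : c, c.toSimpleGraph.degree x ≤
      ∑ u ∈ univ.filter (fun u => H.connectedComponentMk u = c), (nb H u).card := by
    refine le_trans (Finset.sum_le_sum fun x _ => hdeg x) ?_
    rw [← Finset.sum_subtype (univ.filter (fun u => H.connectedComponentMk u = c))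
      (p := fun u => u ∈ c) (fun u => by
        rw [Finset.mem_filter]
        exact ⟨fun h => h.2, fun h => ⟨Finset.mem_univ _, h⟩⟩)
      (fun u => (nb H u).card)]
  rw [hcard, hE] at h1
  omega

/-- swapping the colours `i`, `j` on a component: the colouring -/
noncomputable def sw (H : SimpleGraph V) (t : V → V → ℕ) (i j : ℕ) : SimpleGraph V where
  Adj x y := H.Adj x y ∧ (t x y = i ∨ t x y = j) ∧ (t y x = i ∨ t y x = j)
  symm := ⟨fun x y h => ⟨h.1.symm, h.2.2, h.2.1⟩⟩
  loopless := ⟨fun x h => H.loopless.irrefl x h.1⟩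

theorem kempe {H : SimpleGraph V} {C : Finset ℕ} {t : V → V → ℕ} (hEC : EC H C t)
    (N : Finset V) (M : V → Finset ℕ) (hM : ∀ u ∈ N, M u ⊆ miss H C t u) {i j : ℕ}
    (hi : i ∈ C) (hj : j ∈ C) (hij : i ≠ j)
    (hgt : (N.filter (fun u => j ∈ M u)).card + 2 < (N.filter (fun u => i ∈ M u)).card) :
    ∃ (t' : V → V → ℕ) (M' : V → Finset ℕ), EC H C t' ∧ (∀ u ∈ N, M' u ⊆ miss H C t' u) ∧
      (∀ u ∈ N, (M' u).card = (M u).card) ∧
      ∑ a ∈ C, (N.filter (fun u => a ∈ M' u)).card ^ 2 <
        ∑ a ∈ C, (N.filter (fun u => a ∈ M u)).card ^ 2 := by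
  set K := sw H t i j with hK
  let comp : V → K.ConnectedComponent := K.connectedComponentMk
  -- a component with more vertices in `X_i` than in `X_j`
  obtain ⟨c, hc⟩ : ∃ c : K.ConnectedComponent,
      ((N.filter (fun u => j ∈ M u)).filter (fun u => comp u = c)).card <
        ((N.filter (fun u => i ∈ M u)).filter (fun u => comp u = c)).card := by
    by_contra hcon
    push Not at hcon
    have h1 := Finset.card_eq_sum_card_fiberwise (s := N.filter (fun u => i ∈ M u))
      (t := (Finset.univ : Finset K.ConnectedComponent)) (f := comp) (fun _ _ => by simp)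
    have h2 := Finset.card_eq_sum_card_fiberwise (s := N.filter (fun u => j ∈ M u))
      (t := (Finset.univ : Finset K.ConnectedComponent)) (f := comp) (fun _ _ => by simp)
    have h3 : (N.filter (fun u => i ∈ M u)).card ≤ (N.filter (fun u => j ∈ M u)).card := by
      rw [h1, h2]
      exact Finset.sum_le_sum fun c _ => hcon c
    omega
  set xi := ((N.filter (fun u => i ∈ M u)).filter (fun u => comp u = c)).card with hxi
  set xj := ((N.filter (fun u => j ∈ M u)).filter (fun u => comp u = c)).card with hxj
  -- at most two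
  have htwo : xi + xj ≤ 2 := by
    have hdeg2 : ∀ u, (nb K u).card + ((if i ∈ miss H C t u then 1 else 0) +
        (if j ∈ miss H C t u then 1 else 0)) ≤ 2 := by
      intro u
      have h1 : (nb K u).card ≤ (({i, j} : Finset ℕ) \ miss H C t u).card := by
        apply Finset.card_le_card_of_injOn (t u)
        · intro y hy
          have hy' : K.Adj u y := mem_nb.mp hy
          have hy2 : H.Adj u y := hy'.1
          rw [Finset.mem_coe, Finset.mem_sdiff]
          refine ⟨by simpa using hy'.2.1, ?_⟩
          intro hmem
          exact (Finset.mem_sdiff.mp hmem).2 (Finset.mem_image_of_mem _ (mem_nb.mpr hy2))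
        · intro y hy z hz hyz
          have hy' : K.Adj u y := mem_nb.mp hy
          have hz' : K.Adj u z := mem_nb.mp hz
          exact hEC.inj u (mem_nb.mpr hy'.1) (mem_nb.mpr hz'.1) hyz
      have h2 : (({i, j} : Finset ℕ) \ miss H C t u).card + ((if i ∈ miss H C t u then 1 else 0) +
        (if j ∈ miss H C t u then 1 else 0)) ≤ 2 := by
        by_cases h3 : i ∈ miss H C t u <;> by_cases h4 : j ∈ miss H C t u
        · have : (({i, j} : Finset ℕ) \ miss H C t u) = ∅ := by
            ext a; simp only [mem_sdiff, mem_insert, mem_singleton, notMem_empty, iff_false]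
            rintro ⟨rfl | rfl, h⟩ <;> contradiction
          simp [this, h3, h4]
        · have : (({i, j} : Finset ℕ) \ miss H C t u) ⊆ {j} := by
            intro a; simp only [mem_sdiff, mem_insert, mem_singleton]
            rintro ⟨rfl | rfl, h⟩
            · contradiction
            · rfl
          have := Finset.card_le_card this
          simp only [card_singleton] at this
          simp [h3, h4]; omega
        · have : (({i, j} : Finset ℕ) \ miss H C t u) ⊆ {i} := by
            intro a; simp only [mem_sdiff, mem_insert, mem_singleton]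
            rintro ⟨rfl | rfl, h⟩
            · rfl
            · contradiction
          have := Finset.card_le_card this
          simp only [card_singleton] at this
          simp [h3, h4]; omega
        · have : (({i, j} : Finset ℕ) \ miss H C t u).card ≤ ({i, j} : Finset ℕ).card :=
            Finset.card_le_card Finset.sdiff_subset
          have h5 : ({i, j} : Finset ℕ).card ≤ 2 := Finset.card_le_two
          simp [h3, h4]; omega
      omega
    have hb := comp_bound K c
    have hx : xi + xj ≤ ∑ u ∈ univ.filter (fun u => K.connectedComponentMk u = c),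
        ((if i ∈ miss H C t u then 1 else 0) + (if j ∈ miss H C t u then 1 else 0)) := by
      rw [Finset.sum_add_distrib, hxi, hxj, ← Finset.card_filter, ← Finset.card_filter]
      apply Nat.add_le_add
      · apply Finset.card_le_card
        intro u hu
        simp only [mem_filter, mem_univ, true_and] at hu ⊢
        exact ⟨hu.2, hM u hu.1.1 hu.1.2⟩
      · apply Finset.card_le_card
        intro u hu
        simp only [mem_filter, mem_univ, true_and] at hu ⊢
        exact ⟨hu.2, hM u hu.1.1 hu.1.2⟩
    have hs : ∑ u ∈ univ.filter (fun u => K.connectedComponentMk u = c), (nb K u).card +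
        ∑ u ∈ univ.filter (fun u => K.connectedComponentMk u = c),
          ((if i ∈ miss H C t u then 1 else 0) + (if j ∈ miss H C t u then 1 else 0)) ≤
        2 * (univ.filter (fun u => K.connectedComponentMk u = c)).card := by
      rw [← Finset.sum_add_distrib, mul_comm]
      apply Finset.sum_le_card_nsmul
      intro u _
      exact hdeg2 u
    omega
  -- the new colouring
  have hadj : ∀ x y, H.Adj x y → comp x = c → comp y ≠ c → t x y ≠ i ∧ t x y ≠ j := by
    intro x y hxy hx hy
    have h1 : ¬ K.Adj x y := by
      intro h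
      apply hy
      rw [← hx]
      exact (SimpleGraph.ConnectedComponent.connectedComponentMk_eq_of_adj h).symm
    constructor
    · intro h
      exact h1 ⟨hxy, Or.inl h, Or.inl (by rw [← hEC.sym x y hxy]; exact h)⟩
    · intro h
      exact h1 ⟨hxy, Or.inr h, Or.inr (by rw [← hEC.sym x y hxy]; exact h)⟩
  let s : Equiv.Perm ℕ := Equiv.swap i j
  have hsC : ∀ a, a ∈ C → s a ∈ C := by
    intro a ha
    by_cases h1 : a = i
    · rw [h1, Equiv.swap_apply_left]; exact hj
    · by_cases h2 : a = j
      · rw [h2, Equiv.swap_apply_right]; exact hi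
      · rw [Equiv.swap_apply_of_ne_of_ne h1 h2]; exact ha
  let t' : V → V → ℕ := fun x y => if comp x = c then s (t x y) else t x y
  let M' : V → Finset ℕ := fun u => if comp u = c then (M u).image s else M u
  have hM'mem : ∀ u a, a ∈ M' u ↔ if comp u = c then s a ∈ M u else a ∈ M u := by
    intro u a
    simp only [M']
    by_cases h : comp u = c
    · rw [if_pos h, if_pos h, Finset.mem_image]
      constructor
      · rintro ⟨b, hb, rfl⟩
        rwa [show s (s b) = b from Equiv.swap_apply_self i j b]
      · intro h1
        exact ⟨s a, h1, Equiv.swap_apply_self i j a⟩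
    · rw [if_neg h, if_neg h]
  refine ⟨t', M', ⟨?_, ?_, ?_⟩, ?_, ?_, ?_⟩
  · intro x y hxy
    simp only [t']
    by_cases hx : comp x = c <;> by_cases hy : comp y = c
    · rw [if_pos hx, if_pos hy, hEC.sym x y hxy]
    · have := hadj x y hxy hx hy
      rw [if_pos hx, if_neg hy, ← hEC.sym x y hxy]
      exact Equiv.swap_apply_of_ne_of_ne this.1 this.2
    · have := hadj y x hxy.symm hy hx
      rw [if_neg hx, if_pos hy, hEC.sym x y hxy]
      exact (Equiv.swap_apply_of_ne_of_ne this.1 this.2).symm
    · rw [if_neg hx, if_neg hy, hEC.sym x y hxy]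
  · intro x y hxy
    simp only [t']
    by_cases hx : comp x = c
    · rw [if_pos hx]; exact hsC _ (hEC.mem x y hxy)
    · rw [if_neg hx]; exact hEC.mem x y hxy
  · intro x y hy z hz hyz
    simp only [t'] at hyz
    by_cases hx : comp x = c
    · rw [if_pos hx, if_pos hx] at hyz
      exact hEC.inj x hy hz (s.injective hyz)
    · rw [if_neg hx, if_neg hx] at hyz
      exact hEC.inj x hy hz hyz
  · intro u hu a ha
    rw [hM'mem] at ha
    by_cases hx : comp u = c
    · rw [if_pos hx] at ha
      have h1 := Finset.mem_sdiff.mp (hM u hu ha)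
      refine Finset.mem_sdiff.mpr ⟨?_, ?_⟩
      · have := hsC _ h1.1
        rwa [show s (s a) = a from Equiv.swap_apply_self i j a] at this
      · intro h2
        obtain ⟨y, hy, hya⟩ := Finset.mem_image.mp h2
        apply h1.2
        refine Finset.mem_image.mpr ⟨y, hy, ?_⟩
        simp only [t', if_pos hx] at hya
        rw [← hya]
        exact (Equiv.swap_apply_self i j _).symm
    · rw [if_neg hx] at ha
      have h1 := Finset.mem_sdiff.mp (hM u hu ha)
      refine Finset.mem_sdiff.mpr ⟨h1.1, ?_⟩
      intro h2
      obtain ⟨y, hy, hya⟩ := Finset.mem_image.mp h2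
      apply h1.2
      refine Finset.mem_image.mpr ⟨y, hy, ?_⟩
      simpa only [t', if_neg hx] using hya
  · intro u _
    simp only [M']
    by_cases hx : comp u = c
    · rw [if_pos hx, Finset.card_image_of_injective _ s.injective]
    · rw [if_neg hx]
  · -- the sum of squares
    have hsplit : ∀ a, (N.filter (fun u => a ∈ M' u)).card =
        ((N.filter (fun u => s a ∈ M u)).filter (fun u => comp u = c)).card +
          ((N.filter (fun u => a ∈ M u)).filter (fun u => ¬ comp u = c)).card := by
      intro a
      rw [← Finset.card_filter_add_card_filter_not (s := N.filter (fun u => a ∈ M' u))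
        (fun u => comp u = c)]
      congr 2
      · ext u
        simp only [mem_filter, hM'mem]
        constructor
        · rintro ⟨⟨h1, h2⟩, h3⟩
          rw [if_pos h3] at h2
          exact ⟨⟨h1, h2⟩, h3⟩
        · rintro ⟨⟨h1, h2⟩, h3⟩
          refine ⟨⟨h1, ?_⟩, h3⟩
          rw [if_pos h3]; exact h2
      · ext u
        simp only [mem_filter, hM'mem]
        constructor
        · rintro ⟨⟨h1, h2⟩, h3⟩
          rw [if_neg h3] at h2
          exact ⟨⟨h1, h2⟩, h3⟩
        · rintro ⟨⟨h1, h2⟩, h3⟩
          refine ⟨⟨h1, ?_⟩, h3⟩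
          rw [if_neg h3]; exact h2
    have hi' : (N.filter (fun u => i ∈ M' u)).card + xi =
        (N.filter (fun u => i ∈ M u)).card + xj := by
      rw [hsplit i, show s i = j from Equiv.swap_apply_left i j,
        ← Finset.card_filter_add_card_filter_not (s := N.filter (fun u => i ∈ M u))
        (fun u => comp u = c), hxi, hxj]
      ring
    have hj' : (N.filter (fun u => j ∈ M' u)).card + xj =
        (N.filter (fun u => j ∈ M u)).card + xi := by
      rw [hsplit j, show s j = i from Equiv.swap_apply_right i j,
        ← Finset.card_filter_add_card_filter_not (s := N.filter (fun u => j ∈ M u))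
        (fun u => comp u = c), hxi, hxj]
      ring
    have hoth : ∀ a, a ≠ i → a ≠ j → (N.filter (fun u => a ∈ M' u)).card =
        (N.filter (fun u => a ∈ M u)).card := by
      intro a h1 h2
      rw [hsplit a, show s a = a from Equiv.swap_apply_of_ne_of_ne h1 h2,
        Finset.card_filter_add_card_filter_not]
    have hjC : j ∈ C.erase i := Finset.mem_erase.mpr ⟨hij.symm, hj⟩
    rw [← Finset.add_sum_erase C _ hi, ← Finset.add_sum_erase C _ hi,
      ← Finset.add_sum_erase (C.erase i) _ hjC, ← Finset.add_sum_erase (C.erase i) _ hjC]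
    have hrest : ∑ a ∈ (C.erase i).erase j, (N.filter (fun u => a ∈ M' u)).card ^ 2 =
        ∑ a ∈ (C.erase i).erase j, (N.filter (fun u => a ∈ M u)).card ^ 2 := by
      apply Finset.sum_congr rfl
      intro a ha
      simp only [Finset.mem_erase] at ha
      rw [hoth a ha.2.1 ha.1]
    rw [hrest]
    set A := (N.filter (fun u => i ∈ M u)).card
    set B := (N.filter (fun u => j ∈ M u)).card
    set A' := (N.filter (fun u => i ∈ M' u)).card
    set B' := (N.filter (fun u => j ∈ M' u)).card
    obtain ⟨d, hd, hd1, hd2⟩ : ∃ d, xi = xj + d ∧ 1 ≤ d ∧ d ≤ 2 := ⟨xi - xj, by omega, by omega,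
      by omega⟩
    have hA' : A = A' + d := by omega
    have hB' : B' = B + d := by omega
    have hAB : B + 2 < A' + d := by omega
    have : A' ^ 2 + (B + d) ^ 2 < (A' + d) ^ 2 + B ^ 2 := by
      have h1 : B < A' := by omega
      nlinarith
    rw [hA', hB']
    omega

/-- deleting all edges at `v` -/
def del (G : SimpleGraph V) (v : V) : SimpleGraph V where
  Adj x y := G.Adj x y ∧ x ≠ v ∧ y ≠ v
  symm := ⟨fun _ _ h => ⟨h.1.symm, h.2.2, h.2.1⟩⟩
  loopless := ⟨fun x h => G.loopless.irrefl x h.1⟩

theorem card_nb_del {G : SimpleGraph V} {v u : V} (hu : u ∈ nb G v) :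
    (nb (del G v) u).card + 1 = (nb G u).card := by
  have hadj := mem_nb.mp hu
  have h1 : nb (del G v) u = (nb G u).erase v := by
    ext y
    simp only [mem_nb, Finset.mem_erase, del]
    constructor
    · rintro ⟨h1, h2, h3⟩; exact ⟨h3, h1⟩
    · rintro ⟨h1, h2⟩; exact ⟨h2, hadj.ne', h1⟩
  rw [h1, Finset.card_erase_add_one]
  exact mem_nb.mpr hadj.symm

theorem main_ind (n : ℕ) : ∀ (C : Finset ℕ), C.card = n → ∀ (G : SimpleGraph V) (v u₀ : V),
    (nb G v).card ≤ n → (∀ w ∈ nb G v, (nb G w).card ≤ n) →
    (∀ w ∈ nb G v, w ≠ u₀ → (nb G w).card + 1 ≤ n) →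
    (∃ t, EC (del G v) C t) → ∃ t, EC G C t := by
  induction n with
  | zero =>
    intro C _ G v u₀ hv _ _ ht
    have h0 : nb G v = ∅ := Finset.card_eq_zero.mp (by omega)
    have hG : del G v = G := by
      ext x y
      simp only [del]
      refine ⟨fun h => h.1, fun h => ⟨h, ?_, ?_⟩⟩
      · rintro rfl
        have : y ∈ nb G x := mem_nb.mpr h
        rw [h0] at this; simp at this
      · rintro rfl
        have : x ∈ nb G y := mem_nb.mpr h.symm
        rw [h0] at this; simp at this
    rwa [hG] at ht
  | succ n ih =>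
    intro C hC G v u₀ hv hd hd' ht
    by_cases h0 : nb G v = ∅
    · have hG : del G v = G := by
        ext x y
        simp only [del]
        refine ⟨fun h => h.1, fun h => ⟨h, ?_, ?_⟩⟩
        · rintro rfl
          have : y ∈ nb G x := mem_nb.mpr h
          rw [h0] at this; simp at this
        · rintro rfl
          have : x ∈ nb G y := mem_nb.mpr h.symm
          rw [h0] at this; simp at this
      rwa [hG] at ht
    -- the exceptional neighbour
    obtain ⟨u₁, hu₁, hd1⟩ : ∃ u₁ ∈ nb G v, ∀ w ∈ nb G v, w ≠ u₁ → (nb G w).card + 1 ≤ n + 1 := by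
      by_cases h : u₀ ∈ nb G v
      · exact ⟨u₀, h, hd'⟩
      · obtain ⟨u₁, hu₁⟩ := Finset.nonempty_iff_ne_empty.mpr h0
        exact ⟨u₁, hu₁, fun w hw _ => hd' w hw (fun h1 => h (h1 ▸ hw))⟩
    set N := nb G v with hN
    set H := del G v with hH
    -- states
    let St : Set ((V → V → ℕ) × (V → Finset ℕ)) := {s | EC H C s.1 ∧
      (∀ u ∈ N, s.2 u ⊆ miss H C s.1 u) ∧ ∀ u ∈ N, (s.2 u).card = if u = u₁ then 1 else 2}
    have hmiss : ∀ t, EC H C t → ∀ u ∈ N, (miss H C t u).card + (nb G u).card = n + 2 := by
      intro t ht u hu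
      have h1 := card_miss ht u
      have h2 := card_nb_del hu
      rw [← hH] at h2
      omega
    have hne : St.Nonempty := by
      obtain ⟨t, ht⟩ := ht
      have : ∀ u, ∃ M : Finset ℕ, u ∈ N → M ⊆ miss H C t u ∧
          M.card = if u = u₁ then 1 else 2 := by
        intro u
        by_cases hu : u ∈ N
        · have h1 := hmiss t ht u hu
          have h2 : (if u = u₁ then 1 else 2) ≤ (miss H C t u).card := by
            by_cases h3 : u = u₁
            · rw [if_pos h3]
              have := hd u hu
              omega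
            · rw [if_neg h3]
              have := hd1 u hu h3
              omega
          obtain ⟨M, hM1, hM2⟩ := Finset.exists_subset_card_eq h2
          exact ⟨M, fun _ => ⟨hM1, hM2⟩⟩
        · exact ⟨∅, fun h => absurd h hu⟩
      choose M hM using this
      exact ⟨(t, M), ht, fun u hu => (hM u hu).1, fun u hu => (hM u hu).2⟩
    let Φ : ((V → V → ℕ) × (V → Finset ℕ)) → ℕ := fun s =>
      ∑ a ∈ C, (N.filter (fun u => a ∈ s.2 u)).card ^ 2
    obtain ⟨⟨t, M⟩, ⟨hEC, hM, hMc⟩, hmin⟩ :=
      WellFounded.has_min (InvImage.wf Φ (Nat.lt_wfRel.wf)) St hne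
    simp only at hEC hM hMc
    have hbal : ∀ i ∈ C, ∀ j ∈ C, (N.filter (fun u => i ∈ M u)).card ≤
        (N.filter (fun u => j ∈ M u)).card + 2 := by
      intro i hi j hj
      by_contra hcon
      push Not at hcon
      have hij : i ≠ j := by
        rintro rfl
        omega
      obtain ⟨t', M', h1, h2, h3, h4⟩ := kempe hEC N M hM hi hj hij hcon
      refine hmin (t', M') ⟨h1, h2, ?_⟩ h4
      intro u hu
      rw [h3 u hu, hMc u hu]
    -- parity
    have hsum : ∑ a ∈ C, (N.filter (fun u => a ∈ M u)).card + 1 = 2 * N.card := by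
      have h1 : ∑ a ∈ C, (N.filter (fun u => a ∈ M u)).card = ∑ u ∈ N, (M u).card := by
        simp only [Finset.card_filter]
        rw [Finset.sum_comm]
        apply Finset.sum_congr rfl
        intro u hu
        rw [← Finset.card_filter]
        congr 1
        ext a
        simp only [mem_filter]
        exact ⟨fun h => h.2, fun h => ⟨(Finset.mem_sdiff.mp (hM u hu h)).1, h⟩⟩
      rw [h1, Finset.sum_congr rfl hMc, ← Finset.add_sum_erase N _ hu₁, if_pos rfl]
      have h2 : ∑ u ∈ N.erase u₁, (if u = u₁ then 1 else 2) = 2 * (N.erase u₁).card := by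
        rw [mul_comm, ← smul_eq_mul, ← Finset.sum_const]
        apply Finset.sum_congr rfl
        intro u hu
        rw [if_neg (Finset.ne_of_mem_erase hu)]
      have h3 := Finset.card_erase_add_one hu₁
      omega
    obtain ⟨i, hi, hi1⟩ : ∃ i ∈ C, (N.filter (fun u => i ∈ M u)).card = 1 := by
      by_contra hcon
      push Not at hcon
      have h1 : ∃ j ∈ C, (N.filter (fun u => j ∈ M u)).card < 2 := by
        by_contra hcon2
        push Not at hcon2
        have h2 : ∑ _a ∈ C, 2 ≤ ∑ a ∈ C, (N.filter (fun u => a ∈ M u)).card :=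
          Finset.sum_le_sum hcon2
        rw [Finset.sum_const, smul_eq_mul] at h2
        omega
      obtain ⟨j, hj, hj1⟩ := h1
      have hj0 : (N.filter (fun u => j ∈ M u)).card = 0 := by
        have := hcon j hj
        omega
      have heven : ∀ a ∈ C, 2 ∣ (N.filter (fun u => a ∈ M u)).card := by
        intro a ha
        have h2 := hbal a ha j hj
        have h3 := hcon a ha
        have h4 : (N.filter (fun u => a ∈ M u)).card = 0 ∨
            (N.filter (fun u => a ∈ M u)).card = 2 := by omega
        rcases h4 with h4 | h4 <;> rw [h4]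
        exact dvd_zero _
      have h5 := Finset.dvd_sum heven
      omega
    obtain ⟨u, hu⟩ := Finset.card_eq_one.mp hi1
    have huN : u ∈ N ∧ i ∈ M u := by
      have : u ∈ N.filter (fun u => i ∈ M u) := by rw [hu]; simp
      simpa using this
    have huniq : ∀ w ∈ N, w ≠ u → i ∉ M w := by
      intro w hw hne h
      have : w ∈ N.filter (fun u => i ∈ M u) := by simp [hw, h]
      rw [hu] at this
      exact hne (by simpa using this)
    have hvu : G.Adj v u := mem_nb.mp huN.1
    -- the smaller graph
    let G' : SimpleGraph V :=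
      { Adj := fun x y => (H.Adj x y ∧ t x y ≠ i) ∨
          (G.Adj x y ∧ ((x = v ∧ y ≠ u) ∨ (y = v ∧ x ≠ u)))
        symm := ⟨by
          rintro x y (⟨h1, h2⟩ | ⟨h1, h2⟩)
          · exact Or.inl ⟨h1.symm, by rw [← hEC.sym x y h1]; exact h2⟩
          · exact Or.inr ⟨h1.symm, h2.symm⟩⟩
        loopless := ⟨by
          rintro x (⟨h1, -⟩ | ⟨h1, -⟩)
          · exact H.loopless.irrefl x h1
          · exact G.loopless.irrefl x h1⟩ }
    have hG'G : ∀ x y, G'.Adj x y → G.Adj x y := by
      rintro x y (⟨h1, -⟩ | ⟨h1, -⟩)
      · exact h1.1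
      · exact h1
    have hNv : nb G' v = N.erase u := by
      ext y
      simp only [mem_nb, Finset.mem_erase, hN]
      constructor
      · rintro (⟨h1, -⟩ | ⟨h1, h2 | h2⟩)
        · exact absurd rfl h1.2.1
        · exact ⟨h2.2, h1⟩
        · exact absurd h2.1.symm h1.ne
      · rintro ⟨h1, h2⟩
        exact Or.inr ⟨h2, Or.inl ⟨rfl, h1⟩⟩
    have hdeg : ∀ w ∈ N, w ≠ u → (nb G' w).card ≤ (nb G w).card ∧
        (i ∉ miss H C t w → (nb G' w).card + 1 ≤ (nb G w).card) := by
      intro w hw hwu
      have h1 : nb G' w ⊆ nb G w := by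
        intro y hy
        exact mem_nb.mpr (hG'G _ _ (mem_nb.mp hy))
      refine ⟨Finset.card_le_card h1, fun hi' => ?_⟩
      have h2 : i ∈ (nb H w).image (t w) := by
        by_contra hcon
        exact hi' (Finset.mem_sdiff.mpr ⟨hi, hcon⟩)
      obtain ⟨y, hy, hyi⟩ := Finset.mem_image.mp h2
      have hyH : H.Adj w y := mem_nb.mp hy
      apply Finset.card_lt_card
      rw [Finset.ssubset_iff_of_subset h1]
      refine ⟨y, mem_nb.mpr hyH.1, ?_⟩
      rw [mem_nb]
      rintro (⟨-, h3⟩ | ⟨-, h3 | h3⟩)
      · exact h3 hyi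
      · exact hyH.2.1 h3.1
      · exact hyH.2.2 h3.1
    obtain ⟨t', ht'⟩ := ih (C.erase i) (by rw [Finset.card_erase_of_mem hi, hC]; rfl) G' v u₁
      (by
        rw [hNv, Finset.card_erase_of_mem huN.1]
        omega)
      (by
        intro w hw
        rw [hNv, Finset.mem_erase] at hw
        by_cases hw1 : w = u₁
        · have h1 := hdeg w hw.2 hw.1
          have h2 := hmiss t hEC w hw.2
          by_cases h3 : (nb G w).card ≤ n
          · omega
          · have h4 : (miss H C t w).card ≤ 1 := by
              omega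
            have h5 : M w = miss H C t w := by
              apply Finset.eq_of_subset_of_card_le (hM w hw.2)
              rw [hMc w hw.2, if_pos hw1]
              exact h4
            have h6 := h1.2 (by rw [← h5]; exact huniq w hw.2 hw.1)
            have h7 := hd w hw.2
            omega
        · have h1 := hdeg w hw.2 hw.1
          have h2 := hd1 w hw.2 hw1
          omega)
      (by
        intro w hw hw1
        rw [hNv, Finset.mem_erase] at hw
        have h1 := hdeg w hw.2 hw.1
        have h2 := hmiss t hEC w hw.2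
        have h3 := hd1 w hw.2 hw1
        by_cases h4 : (nb G w).card + 1 ≤ n
        · omega
        · have h5 : (miss H C t w).card ≤ 2 := by omega
          have h6 : M w = miss H C t w := by
            apply Finset.eq_of_subset_of_card_le (hM w hw.2)
            rw [hMc w hw.2, if_neg hw1]
            exact h5
          have h7 := h1.2 (by rw [← h6]; exact huniq w hw.2 hw.1)
          omega)
      ⟨t, by
        have hadj : ∀ x y, (del G' v).Adj x y → H.Adj x y ∧ t x y ≠ i := by
          rintro x y ⟨h1 | ⟨-, h1 | h1⟩, h2, h3⟩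
          · exact h1
          · exact absurd h1.1 h2
          · exact absurd h1.1 h3
        refine ⟨fun x y h => hEC.sym x y (hadj x y h).1, fun x y h => ?_, fun x y hy z hz h => ?_⟩
        · exact Finset.mem_erase.mpr ⟨(hadj x y h).2, hEC.mem x y (hadj x y h).1⟩
        · exact hEC.inj x (mem_nb.mpr (hadj x y (mem_nb.mp hy)).1)
            (mem_nb.mpr (hadj x z (mem_nb.mp hz)).1) h⟩
    -- edges of `G` outside `G'`
    have hout : ∀ x y, G.Adj x y → ¬ G'.Adj x y →
        (H.Adj x y ∧ t x y = i) ∨ (x = v ∧ y = u) ∨ (x = u ∧ y = v) := by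
      intro x y h1 h2
      by_cases hx : x = v
      · right; left
        refine ⟨hx, ?_⟩
        by_contra hy
        exact h2 (Or.inr ⟨h1, Or.inl ⟨hx, hy⟩⟩)
      · by_cases hy : y = v
        · right; right
          refine ⟨?_, hy⟩
          by_contra hx'
          exact h2 (Or.inr ⟨h1, Or.inr ⟨hy, hx'⟩⟩)
        · left
          refine ⟨⟨h1, hx, hy⟩, ?_⟩
          by_contra h3
          exact h2 (Or.inl ⟨⟨h1, hx, hy⟩, h3⟩)
    have humiss : ∀ y, H.Adj u y → t u y ≠ i := by
      intro y hy h
      have := (Finset.mem_sdiff.mp (hM u huN.1 huN.2)).2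
      apply this
      exact Finset.mem_image.mpr ⟨y, mem_nb.mpr hy, h⟩
    refine ⟨fun x y => if G'.Adj x y then t' x y else i, ?_, ?_, ?_⟩
    · intro x y hxy
      by_cases h : G'.Adj x y
      · simp only [if_pos h, if_pos h.symm]
        exact ht'.sym x y h
      · simp only [if_neg h, if_neg (fun h' : G'.Adj y x => h h'.symm)]
    · intro x y hxy
      by_cases h : G'.Adj x y
      · simp only [if_pos h]
        exact Finset.mem_of_mem_erase (ht'.mem x y h)
      · simp only [if_neg h]
        exact hi
    · intro x y hy z hz hyz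
      have hy' : G.Adj x y := mem_nb.mp hy
      have hz' : G.Adj x z := mem_nb.mp hz
      by_cases h1 : G'.Adj x y <;> by_cases h2 : G'.Adj x z
      · simp only [if_pos h1, if_pos h2] at hyz
        exact ht'.inj x (mem_nb.mpr h1) (mem_nb.mpr h2) hyz
      · simp only [if_pos h1, if_neg h2] at hyz
        exact absurd hyz (Finset.ne_of_mem_erase (ht'.mem x y h1))
      · simp only [if_neg h1, if_pos h2] at hyz
        exact absurd hyz.symm (Finset.ne_of_mem_erase (ht'.mem x z h2))
      · rcases hout x y hy' h1 with a | a | a <;> rcases hout x z hz' h2 with b | b | b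
        · exact hEC.inj x (mem_nb.mpr a.1) (mem_nb.mpr b.1) (by rw [a.2, b.2])
        · exact absurd b.1 a.1.2.1
        · obtain ⟨rfl, -⟩ := b
          exact absurd a.2 (humiss y a.1)
        · exact absurd a.1 b.1.2.1
        · rw [a.2, b.2]
        · exact absurd (a.1.symm.trans b.1) hvu.ne
        · obtain ⟨rfl, -⟩ := a
          exact absurd b.2 (humiss z b.1)
        · exact absurd (b.1.symm.trans a.1) hvu.ne
        · rw [a.2, b.2]

theorem vizing (G : SimpleGraph V) (Δ : ℕ) (hG : ∀ v, (nb G v).card ≤ Δ) :
    ∃ t : V → V → ℕ, EC G (range (Δ + 1)) t := by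
  let GS : Finset V → SimpleGraph V := fun S =>
    { Adj := fun x y => G.Adj x y ∧ x ∈ S ∧ y ∈ S
      symm := ⟨fun _ _ h => ⟨h.1.symm, h.2.2, h.2.1⟩⟩
      loopless := ⟨fun x h => G.loopless.irrefl x h.1⟩ }
  have key : ∀ S : Finset V, ∃ t, EC (GS S) (range (Δ + 1)) t := by
    intro S
    induction S using Finset.induction_on with
    | empty =>
      refine ⟨fun _ _ => 0, fun _ _ _ => rfl, fun x y h => ?_, fun x y hy => ?_⟩
      · exact absurd h.2.1 (by simp)
      · exact absurd (mem_nb.mp hy).2.1 (by simp)
    | insert v S hv ih =>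
      have hdeg : ∀ w, (nb (GS (insert v S)) w).card ≤ Δ := by
        intro w
        refine le_trans (Finset.card_le_card ?_) (hG w)
        intro y hy
        exact mem_nb.mpr (mem_nb.mp hy).1
      apply main_ind (Δ + 1) (range (Δ + 1)) (by simp) (GS (insert v S)) v v
      · exact le_trans (hdeg v) (Nat.le_succ _)
      · intro w _
        exact le_trans (hdeg w) (Nat.le_succ _)
      · intro w _ _
        exact Nat.succ_le_succ (hdeg w)
      · have : del (GS (insert v S)) v = GS S := by
          ext x y
          simp only [del, GS, Finset.mem_insert]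
          constructor
          · rintro ⟨⟨h1, h2, h3⟩, h4, h5⟩
            exact ⟨h1, h2.resolve_left h4, h3.resolve_left h5⟩
          · rintro ⟨h1, h2, h3⟩
            refine ⟨⟨h1, Or.inr h2, Or.inr h3⟩, ?_, ?_⟩
            · rintro rfl; exact hv h2
            · rintro rfl; exact hv h3
        rw [this]
        exact ih
  obtain ⟨t, ht⟩ := key univ
  have hU : GS univ = G := by
    ext x y
    simp [GS]
  rw [hU] at ht
  exact ⟨t, ht⟩

end

end VIZ

/-- Vizing's theorem -/
theorem stmt_VIZ : Stmt_VIZ.{u} := by
  intro V _ G Δ hG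
  obtain ⟨t, ht⟩ := VIZ.vizing G Δ hG
  refine ⟨fun v w => if G.Adj v w then t v w else 0, ?_, ?_, ?_⟩
  · intro v w
    by_cases h : G.Adj v w
    · simp only [if_pos h, if_pos h.symm]
      exact ht.sym v w h
    · simp only [if_neg h, if_neg (fun h' : G.Adj w v => h h'.symm)]
  · intro v w
    by_cases h : G.Adj v w
    · simp only [if_pos h]
      exact Finset.mem_range.mp (ht.mem v w h)
    · simp only [if_neg h]
      omega
  · intro v y hy z hz hyz
    have hy' : G.Adj v y := VIZ.mem_nb.mp hy
    have hz' : G.Adj v z := VIZ.mem_nb.mp hz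
    simp only [if_pos hy', if_pos hz'] at hyz
    exact ht.inj v hy hz hyz

end Pool.Agent.Work.MP_db9399_all

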